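import Pool.Agent.R549.BD.Defs

set_option autoImplicit false

open Set

namespace Pool.Agent.R564.Dig

open Pool.Agent.R549.BD (H NonExp Stm_Dich mk sub)

/-- A Borel directed graph: an irreflexive arc relation whose arc set is Borel. -/
structure BorelDigraph (V : Type) [MeasurableSpace V] where
  Arc : V → V → Prop
  irrefl : ∀ x, ¬ Arc x x
  borel : MeasurableSet {p : V × V | Arc p.1 p.2}

namespace BorelDigraph

variable {V : Type} [MeasurableSpace V] (D : BorelDigraph V)

/-- adjacency in the underlying graph -/
def Adj (x y : V) : Prop := D.Arc x y ∨ D.Arc y x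

/-- every vertex has countably many neighbours in the underlying graph -/
def LocallyCountable : Prop := ∀ x, {y | D.Adj x y}.Countable

/-- every vertex has at most `n` out-neighbours -/
def OutDegreeLE (n : ℕ) : Prop := ∀ x, {y | D.Arc x y}.encard ≤ n

/-- the Borel chromatic number of the underlying graph induced on `M` is at most `k` -/
def BorelColorableOn (M : Set V) (k : ℕ) : Prop :=
  ∃ c : M → Fin k, Measurable c ∧ ∀ x y : M, D.Adj x y → c x ≠ c y

/-- every vertex is in `M` or has an out-neighbour in `M`, i.e. `ρ(x, M) ≤ 1` -/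
def Absorbing (M : Set V) : Prop := ∀ x, x ∈ M ∨ ∃ y ∈ M, D.Arc x y

end BorelDigraph

/-! ### the concrete digraph -/

/-- The vertices: a label and two families of four labelled trees. `(n, A, B)` is a vertex with
label `n` lying on a closed walk `x, f x, f² x, f³ x, f⁴ x` of length five (`A i` describes
everything hanging at `f^(i+1) x` away from this walk) and on a similar closed walk for `g`
(described by `B`). -/
abbrev V : Type := ℕ × (Fin 4 → H) × (Fin 4 → H)

def f (x : V) : V := (x.2.1 0 [], ![x.2.1 1, x.2.1 2, x.2.1 3, mk x.1 x.2.2], sub (x.2.1 0))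

def fi (x : V) : V :=
  (x.2.1 3 [], ![mk x.1 x.2.2, x.2.1 0, x.2.1 1, x.2.1 2], sub (x.2.1 3))

def g (x : V) : V := (x.2.2 0 [], sub (x.2.2 0), ![x.2.2 1, x.2.2 2, x.2.2 3, mk x.1 x.2.1])

def gi (x : V) : V :=
  (x.2.2 3 [], sub (x.2.2 3), ![mk x.1 x.2.1, x.2.2 0, x.2.2 1, x.2.2 2])

/-- the colour of a vertex: its label mod 5 -/
def col (x : V) : Fin 5 := ⟨x.1 % 5, Nat.mod_lt _ (by norm_num)⟩

lemma mk_sub (h : H) : mk (h []) (sub h) = h := by
  funext w
  cases w with
  | nil => rfl
  | cons c w => rfl

lemma sub_mk (l : ℕ) (ch : Fin 4 → H) : sub (mk l ch) = ch := by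
  funext c w
  rfl

lemma mk_nil (l : ℕ) (ch : Fin 4 → H) : mk l ch [] = l := rfl

lemma vec_eta (A : Fin 4 → H) : ![A 0, A 1, A 2, A 3] = A := by
  funext i
  fin_cases i <;> rfl

lemma fi_f (x : V) : fi (f x) = x := by
  obtain ⟨n, A, B⟩ := x
  refine Prod.ext ?_ (Prod.ext ?_ ?_)
  · rfl
  · show ![mk (A 0 []) (sub (A 0)), A 1, A 2, A 3] = A
    rw [mk_sub, vec_eta]
  · show sub (mk n B) = B
    rw [sub_mk]

lemma gi_g (x : V) : gi (g x) = x := by
  obtain ⟨n, A, B⟩ := x
  refine Prod.ext ?_ (Prod.ext ?_ ?_)
  · rfl
  · show sub (mk n A) = A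
    rw [sub_mk]
  · show ![mk (B 0 []) (sub (B 0)), B 1, B 2, B 3] = B
    rw [mk_sub, vec_eta]

lemma measurable_mk : Measurable (fun p : ℕ × (Fin 4 → H) => mk p.1 p.2) := by
  refine measurable_pi_lambda _ fun w => ?_
  cases w with
  | nil => exact measurable_fst
  | cons c w =>
    exact (measurable_pi_apply w).comp ((measurable_pi_apply c).comp measurable_snd)

lemma measurable_sub : Measurable (fun h : H => sub h) := by
  refine measurable_pi_lambda _ fun c => measurable_pi_lambda _ fun w => ?_
  exact measurable_pi_apply (c :: w)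

lemma measurable_vec {α : Type} [MeasurableSpace α] {a b c d : α → H} (ha : Measurable a)
    (hb : Measurable b) (hc : Measurable c) (hd : Measurable d) :
    Measurable (fun x => ![a x, b x, c x, d x]) := by
  refine measurable_pi_lambda _ fun i => ?_
  fin_cases i
  · exact ha
  · exact hb
  · exact hc
  · exact hd

lemma measurable_f : Measurable f := by
  have hA : ∀ i, Measurable (fun x : V => x.2.1 i) := fun i =>
    (measurable_pi_apply i).comp (measurable_fst.comp measurable_snd)
  have hm : Measurable (fun x : V => mk x.1 x.2.2) :=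
    measurable_mk.comp (measurable_fst.prodMk (measurable_snd.comp measurable_snd))
  exact ((measurable_pi_apply []).comp (hA 0)).prodMk
    ((measurable_vec (hA 1) (hA 2) (hA 3) hm).prodMk (measurable_sub.comp (hA 0)))

lemma measurable_g : Measurable g := by
  have hA : ∀ i, Measurable (fun x : V => x.2.2 i) := fun i =>
    (measurable_pi_apply i).comp (measurable_snd.comp measurable_snd)
  have hm : Measurable (fun x : V => mk x.1 x.2.1) :=
    measurable_mk.comp (measurable_fst.prodMk (measurable_fst.comp measurable_snd))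
  exact ((measurable_pi_apply []).comp (hA 0)).prodMk
    ((measurable_sub.comp (hA 0)).prodMk (measurable_vec (hA 1) (hA 2) (hA 3) hm))

lemma measurable_col : Measurable col := by
  have : col = (fun n : ℕ => (⟨n % 5, Nat.mod_lt _ (by norm_num)⟩ : Fin 5)) ∘ Prod.fst := rfl
  rw [this]
  exact (measurable_of_countable _).comp measurable_fst

/-- the digraph: `x → f x` and `x → g x` whenever the colours differ -/
def DG : BorelDigraph V where
  Arc x y := col x ≠ col y ∧ (y = f x ∨ y = g x)
  irrefl x h := h.1 rfl
  borel := by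
    have h1 : MeasurableSet {p : V × V | col p.1 ≠ col p.2} :=
      (measurableSet_eq_fun (measurable_col.comp measurable_fst)
        (measurable_col.comp measurable_snd)).compl
    have h2 : MeasurableSet {p : V × V | p.2 = f p.1} :=
      measurableSet_eq_fun measurable_snd (measurable_f.comp measurable_fst)
    have h3 : MeasurableSet {p : V × V | p.2 = g p.1} :=
      measurableSet_eq_fun measurable_snd (measurable_g.comp measurable_fst)
    exact h1.inter (h2.union h3)

lemma DG_outdeg : DG.OutDegreeLE 2 := by
  intro x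
  refine (Set.encard_le_encard (t := {f x, g x}) ?_).trans (Set.encard_insert_le _ _ |>.trans ?_)
  · rintro y ⟨_, h | h⟩
    · exact Or.inl h
    · exact Or.inr h
  · rw [Set.encard_singleton]
    norm_num

lemma DG_locallyCountable : DG.LocallyCountable := by
  intro x
  refine Set.Finite.countable ((Set.toFinite {f x, g x, fi x, gi x}).subset ?_)
  rintro y (⟨_, h | h⟩ | ⟨_, h | h⟩)
  · simp [h]
  · simp [h]
  · right; right; left
    rw [h, fi_f]
  · right; right; right
    show y = gi x
    rw [h, gi_g]

lemma DG_colorable : DG.BorelColorableOn univ 5 := by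
  refine ⟨fun x => col x.1, measurable_col.comp measurable_subtype_coe, ?_⟩
  rintro x y (h | h)
  · exact h.1
  · exact fun e => h.1 e.symm

end Pool.Agent.R564.Dig
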