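import Pool.Agent.R564.Dig.Defs

set_option autoImplicit false

open Set

namespace Pool.Agent.R564.Dig

open Pool.Agent.R549.BD (H NonExp Stm_Dich mk sub)

/-- agreement up to depth `< n` -/
def Ag (n : ℕ) (d d' : Fin 5 → H) : Prop := ∀ i w, List.length w < n → d i w = d' i w

lemma exists_fixed (F : (Fin 5 → H) → (Fin 5 → H))
    (hF : ∀ n d d', Ag n d d' → Ag (n + 1) (F d) (F d')) : ∃ d, F d = d := by
  let s : ℕ → (Fin 5 → H) := fun n => F^[n] (fun _ _ => 0)
  have hs : ∀ n, s (n + 1) = F (s n) := fun n => Function.iterate_succ_apply' F n _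
  have h1 : ∀ n, Ag n (s n) (s (n + 1)) := by
    intro n
    induction n with
    | zero => intro i w hw; exact absurd hw (Nat.not_lt_zero _)
    | succ n ih => rw [hs n, hs (n + 1)]; exact hF n _ _ ih
  have h2 : ∀ m n, n ≤ m → Ag n (s n) (s m) := by
    intro m n hnm
    induction m, hnm using Nat.le_induction with
    | base => intro i w _; rfl
    | succ m hm ih =>
      intro i w hw
      rw [ih i w hw]
      exact h1 m i w (lt_of_lt_of_le hw hm)
  refine ⟨fun i w => s (w.length + 1) i w, ?_⟩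
  set d : Fin 5 → H := fun i w => s (w.length + 1) i w with hd
  have h3 : ∀ n, Ag n (s n) d := by
    intro n i w hw
    show s n i w = s (w.length + 1) i w
    exact (h2 n (w.length + 1) hw i w (Nat.lt_succ_self _)).symm
  funext i w
  have h4 := hF w.length _ _ (h3 w.length) i w (Nat.lt_succ_self _)
  rw [← hs] at h4
  exact h4.symm

/-- a periodic colouring of the closed walk of length five by three colours -/
def pat : Fin 5 → Fin 3 := ![0, 1, 2, 0, 1]

lemma pat_ne (i : Fin 5) : pat i ≠ pat (i + 1) := by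
  fin_cases i <;> decide

lemma mk_agree {l : ℕ} {n : ℕ} {ch ch' : Fin 4 → H}
    (h : ∀ i w, List.length w < n → ch i w = ch' i w) :
    ∀ w : List (Fin 4), w.length ≤ n → mk l ch w = mk l ch' w := by
  intro w hw
  cases w with
  | nil => rfl
  | cons c w => exact h c w (by simpa using hw)

/-- nonexpansive responses can be played at the five vertices of a closed walk -/
lemma exists_cycle (c : Fin 5 → ℕ) (r : Fin 5 → H → H) (hr : ∀ i, NonExp (r i)) :
    ∃ d : Fin 5 → H, ∀ i, d i = r i (mk (c i) ![d (i + 1), d (i + 2), d (i + 3), d (i + 4)]) := by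
  obtain ⟨d, hd⟩ := exists_fixed
    (fun d i => r i (mk (c i) ![d (i + 1), d (i + 2), d (i + 3), d (i + 4)])) (by
      intro n d d' h i w hw
      refine hr i n _ _ (mk_agree ?_) w (Nat.lt_succ_iff.1 hw)
      intro j w hw
      fin_cases j
      · exact h _ w hw
      · exact h _ w hw
      · exact h _ w hw
      · exact h _ w hw)
  exact ⟨d, fun i => (congrFun hd i).symm⟩

/-- the main argument: there is no Borel set `M` with a Borel 2-colouring which is absorbing. -/
theorem no_absorbing (dich : Stm_Dich) (M : Set V) (hM : MeasurableSet M)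
    (hc : DG.BorelColorableOn M 2) (ha : DG.Absorbing M) : False := by
  classical
  obtain ⟨c, hcm, hcp⟩ := hc
  -- the two colour classes
  let V1 : Set V := Subtype.val '' (c ⁻¹' {0})
  have hV1 : MeasurableSet V1 := hM.subtype_image (hcm (measurableSet_singleton 0))
  have hV1M : V1 ⊆ M := by
    rintro x ⟨y, _, rfl⟩
    exact y.2
  have hV1adj : ∀ x ∈ V1, ∀ y ∈ V1, ¬ DG.Adj x y := by
    rintro _ ⟨x, hx, rfl⟩ _ ⟨y, hy, rfl⟩ h
    exact hcp x y h (by rw [mem_preimage, mem_singleton_iff] at hx hy; rw [hx, hy])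
  have hV2adj : ∀ x ∈ M \ V1, ∀ y ∈ M \ V1, ¬ DG.Adj x y := by
    rintro x ⟨hxM, hx⟩ y ⟨hyM, hy⟩ h
    have h1 : c ⟨x, hxM⟩ ≠ 0 := fun e => hx ⟨⟨x, hxM⟩, e, rfl⟩
    have h2 : c ⟨y, hyM⟩ ≠ 0 := fun e => hy ⟨⟨y, hyM⟩, e, rfl⟩
    refine hcp ⟨x, hxM⟩ ⟨y, hyM⟩ h ?_
    have e1 : c ⟨x, hxM⟩ = 1 := by omega
    have e2 : c ⟨y, hyM⟩ = 1 := by omega
    rw [e1, e2]
  -- vertices outside `M` absorbed along `f`
  let Ca : Set V := {x | x ∉ M ∧ col x ≠ col (f x) ∧ f x ∈ M}
  have hCa : MeasurableSet Ca :=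
    hM.compl.inter (((measurableSet_eq_fun measurable_col
      (measurable_col.comp measurable_f)).compl).inter (measurable_f hM))
  let A : Set V := V1 ∪ Ca
  have hA : MeasurableSet A := hV1.union hCa
  have hAc : ∀ x, x ∉ A → x ∉ M → col x ≠ col (g x) ∧ g x ∈ M := by
    intro x hx hxM
    rcases ha x with h | ⟨y, hyM, hne, h | h⟩
    · exact absurd h hxM
    · subst h
      exact absurd (Or.inr ⟨hxM, hne, hyM⟩) hx
    · subst h
      exact ⟨hne, hyM⟩
  have stepA : ∀ x ∈ A, f x ∈ A → col x ≠ col (f x) → (x ∈ V1 ↔ f x ∉ V1) := by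
    intro x hx hfx hne
    constructor
    · intro h h'
      exact hV1adj x h _ h' (Or.inl ⟨hne, Or.inl rfl⟩)
    · intro h
      by_contra hx1
      rcases hx with hx | hx
      · exact hx1 hx
      rcases hfx with hf | hf
      · exact h hf
      · exact hf.1 hx.2.2
  have stepB : ∀ x ∉ A, g x ∉ A → col x ≠ col (g x) → (x ∈ M ↔ g x ∉ M) := by
    intro x hx hgx hne
    constructor
    · intro h h'
      exact hV2adj x ⟨h, fun e => hx (Or.inl e)⟩ _ ⟨h', fun e => hgx (Or.inl e)⟩
        (Or.inl ⟨hne, Or.inr rfl⟩)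
    · intro h
      by_contra hxM
      exact h (hAc x hx hxM).2
  -- the games
  let Φ : ℕ → H × H → V := fun n p => (n, sub p.1, sub p.2)
  have hΦ : ∀ n, Measurable (Φ n) := fun n =>
    measurable_const.prodMk ((measurable_sub.comp measurable_fst).prodMk
      (measurable_sub.comp measurable_snd))
  have dich' : ∀ n : Fin 5,
      (∃ r : H → H, NonExp r ∧ (∀ d, r d [] = n.val) ∧
        ∀ d : H, d [] = n.val → Φ n.val (r d, d) ∉ A) ∨
      (∃ r : H → H, NonExp r ∧ (∀ u, r u [] = n.val) ∧
        ∀ u : H, u [] = n.val → Φ n.val (u, r u) ∈ A) := by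
    intro n
    rcases dich ((Φ n.val) ⁻¹' Aᶜ) ((hΦ n.val) hA.compl) n.val n.val with
      ⟨r, h1, h2, h3⟩ | ⟨r, h1, h2, h3⟩
    · exact Or.inl ⟨r, h1, h2, fun d hd => h3 d hd⟩
    · exact Or.inr ⟨r, h1, h2, fun u hu => not_not.1 (h3 u hu)⟩
  -- pigeonhole
  have pig : ∀ P : Fin 5 → Prop, (∃ e : Fin 3 → Fin 5, Function.Injective e ∧ ∀ i, P (e i)) ∨
      (∃ e : Fin 3 → Fin 5, Function.Injective e ∧ ∀ i, ¬ P (e i)) := by
    intro P
    have h : (Finset.univ.filter P).card + (Finset.univ.filter fun i => ¬ P i).card = 5 := by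
      rw [Finset.card_filter_add_card_filter_not]
      rfl
    rcases (by omega : 3 ≤ (Finset.univ.filter P).card ∨
        3 ≤ (Finset.univ.filter fun i => ¬ P i).card) with h3 | h3
    · left
      obtain ⟨t, ht, hc3⟩ := Finset.exists_subset_card_eq h3
      refine ⟨fun i => t.orderEmbOfFin hc3 i, (t.orderEmbOfFin hc3).injective, fun i => ?_⟩
      have := ht (t.orderEmbOfFin_mem hc3 i)
      exact (Finset.mem_filter.1 this).2
    · right
      obtain ⟨t, ht, hc3⟩ := Finset.exists_subset_card_eq h3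
      refine ⟨fun i => t.orderEmbOfFin hc3 i, (t.orderEmbOfFin hc3).injective, fun i => ?_⟩
      have := ht (t.orderEmbOfFin_mem hc3 i)
      exact (Finset.mem_filter.1 this).2
  have colval : ∀ (n : Fin 5) (p : H × H), col (Φ n.val p) = n := by
    intro n p
    apply Fin.ext
    exact Nat.mod_eq_of_lt n.2
  rcases pig (fun n : Fin 5 => ∃ r : H → H, NonExp r ∧ (∀ u, r u [] = n.val) ∧
      ∀ u : H, u [] = n.val → Φ n.val (u, r u) ∈ A) with ⟨e, he, hr⟩ | ⟨e, he, hr⟩
  · -- an `f`-cycle inside `A`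
    choose r h1 h2 h3 using hr
    obtain ⟨d, hd⟩ := exists_cycle (fun i => (e (pat i)).val) (fun i => r (pat i))
      (fun i => h1 (pat i))
    let u : Fin 5 → H := fun i =>
      mk (e (pat i)).val ![d (i + 1), d (i + 2), d (i + 3), d (i + 4)]
    let x : Fin 5 → V := fun i => Φ (e (pat i)).val (u i, d i)
    have hd0 : ∀ i, d i [] = (e (pat i)).val := fun i => by rw [hd i]; exact h2 _ _
    have hxA : ∀ i, x i ∈ A := by
      intro i
      have := h3 (pat i) (u i) rfl
      have hdi : r (pat i) (u i) = d i := (hd i).symm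
      rw [hdi] at this
      exact this
    have hxf : ∀ i, f (x i) = x (i + 1) := by
      intro i
      have e1 : sub (u i) = ![d (i + 1), d (i + 2), d (i + 3), d (i + 4)] := sub_mk _ _
      have e2 : sub (u (i + 1)) = ![d (i + 1 + 1), d (i + 1 + 2), d (i + 1 + 3), d (i + 1 + 4)] :=
        sub_mk _ _
      refine Prod.ext ?_ (Prod.ext ?_ ?_)
      · show sub (u i) 0 [] = _
        rw [e1]
        exact hd0 (i + 1)
      · show ![sub (u i) 1, sub (u i) 2, sub (u i) 3, mk (e (pat i)).val (sub (d i))] =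
          sub (u (i + 1))
        rw [e1, e2]
        have e3 : mk (e (pat i)).val (sub (d i)) = d i := by
          rw [← hd0 i]; exact mk_sub _
        rw [e3]
        have a1 : i + 1 + 1 = i + 2 := by rw [add_assoc]; rfl
        have a2 : i + 1 + 2 = i + 3 := by rw [add_assoc]; rfl
        have a3 : i + 1 + 3 = i + 4 := by rw [add_assoc]; rfl
        have a4 : i + 1 + 4 = i := by
          rw [add_assoc]
          have : (1 + 4 : Fin 5) = 0 := rfl
          rw [this, add_zero]
        rw [a1, a2, a3, a4]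
        rfl
      · show sub (sub (u i) 0) = sub (d (i + 1))
        rw [e1]
        rfl
    have hne : ∀ i, col (x i) ≠ col (x (i + 1)) := by
      intro i h
      rw [colval, colval] at h
      exact pat_ne i (he h)
    have hst : ∀ i, x i ∈ V1 ↔ x (i + 1) ∉ V1 := by
      intro i
      have := stepA (x i) (hxA i) (by rw [hxf]; exact hxA _) (by rw [hxf]; exact hne i)
      rwa [hxf] at this
    have q0 := hst 0
    have q1 := hst 1
    have q2 := hst 2
    have q3 := hst 3
    have q4 := hst 4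
    have t0 : (0 : Fin 5) + 1 = 1 := rfl
    have t1 : (1 : Fin 5) + 1 = 2 := rfl
    have t2 : (2 : Fin 5) + 1 = 3 := rfl
    have t3 : (3 : Fin 5) + 1 = 4 := rfl
    have t4 : (4 : Fin 5) + 1 = 0 := rfl
    rw [t0] at q0
    rw [t1] at q1
    rw [t2] at q2
    rw [t3] at q3
    rw [t4] at q4
    tauto
  · -- a `g`-cycle outside `A`
    have hr' : ∀ i, ∃ r : H → H, NonExp r ∧ (∀ d, r d [] = (e i).val) ∧
        ∀ d : H, d [] = (e i).val → Φ (e i).val (r d, d) ∉ A := fun i =>
      (dich' (e i)).resolve_right (hr i)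
    choose r h1 h2 h3 using hr'
    obtain ⟨u, hu⟩ := exists_cycle (fun i => (e (pat i)).val) (fun i => r (pat i))
      (fun i => h1 (pat i))
    let d : Fin 5 → H := fun i =>
      mk (e (pat i)).val ![u (i + 1), u (i + 2), u (i + 3), u (i + 4)]
    let x : Fin 5 → V := fun i => Φ (e (pat i)).val (u i, d i)
    have hu0 : ∀ i, u i [] = (e (pat i)).val := fun i => by rw [hu i]; exact h2 _ _
    have hxA : ∀ i, x i ∉ A := by
      intro i
      have := h3 (pat i) (d i) rfl
      have hdi : r (pat i) (d i) = u i := (hu i).symm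
      rw [hdi] at this
      exact this
    have hxg : ∀ i, g (x i) = x (i + 1) := by
      intro i
      have e1 : sub (d i) = ![u (i + 1), u (i + 2), u (i + 3), u (i + 4)] := sub_mk _ _
      have e2 : sub (d (i + 1)) = ![u (i + 1 + 1), u (i + 1 + 2), u (i + 1 + 3), u (i + 1 + 4)] :=
        sub_mk _ _
      refine Prod.ext ?_ (Prod.ext ?_ ?_)
      · show sub (d i) 0 [] = _
        rw [e1]
        exact hu0 (i + 1)
      · show sub (sub (d i) 0) = sub (u (i + 1))
        rw [e1]
        rfl
      · show ![sub (d i) 1, sub (d i) 2, sub (d i) 3, mk (e (pat i)).val (sub (u i))] =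
          sub (d (i + 1))
        rw [e1, e2]
        have e3 : mk (e (pat i)).val (sub (u i)) = u i := by
          rw [← hu0 i]; exact mk_sub _
        rw [e3]
        have a1 : i + 1 + 1 = i + 2 := by rw [add_assoc]; rfl
        have a2 : i + 1 + 2 = i + 3 := by rw [add_assoc]; rfl
        have a3 : i + 1 + 3 = i + 4 := by rw [add_assoc]; rfl
        have a4 : i + 1 + 4 = i := by
          rw [add_assoc]
          have : (1 + 4 : Fin 5) = 0 := rfl
          rw [this, add_zero]
        rw [a1, a2, a3, a4]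
        rfl
    have hne : ∀ i, col (x i) ≠ col (x (i + 1)) := by
      intro i h
      rw [colval, colval] at h
      exact pat_ne i (he h)
    have hst : ∀ i, x i ∈ M ↔ x (i + 1) ∉ M := by
      intro i
      have := stepB (x i) (hxA i) (by rw [hxg]; exact hxA _) (by rw [hxg]; exact hne i)
      rwa [hxg] at this
    have q0 := hst 0
    have q1 := hst 1
    have q2 := hst 2
    have q3 := hst 3
    have q4 := hst 4
    have t0 : (0 : Fin 5) + 1 = 1 := rfl
    have t1 : (1 : Fin 5) + 1 = 2 := rfl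
    have t2 : (2 : Fin 5) + 1 = 3 := rfl
    have t3 : (3 : Fin 5) + 1 = 4 := rfl
    have t4 : (4 : Fin 5) + 1 = 0 := rfl
    rw [t0] at q0
    rw [t1] at q1
    rw [t2] at q2
    rw [t3] at q3
    rw [t4] at q4
    tauto

end Pool.Agent.R564.Dig
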